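import Pool.Agent.Results.MP_9ddc60_co.RadiusTwo

/-!
# Edge-magic labelings of trees of radius two

Let `v` be a vertex of a finite tree such that all vertices have distance at most two from `v`, let `k` be the
number of the neighbours of `v` with neighbours at distance two from `v`, let `n` be the number of the
vertices at distance two, and let `q` be the number of edges. If `(k + 1) n + 2 k ≤ 2 q`, that is, if `v` is
adjacent to at least `(k - 1) n / 2` leaves, then the tree is edge-magic.

Proof. The labels are written as the integers from `-q` to `q`. Let `d` number the `k` neighbours, and let `b` be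
the sum of the numbers of the parents of the vertices at distance two. The vertex `v` gets `b`, the neighbour with
the number `d` gets `b + d` and its edge `-(b + d)`, the vertices at distance two get `-b` plus partial sums and their
edges get `b` minus the next partial sums. The other labels are symmetric and are used at the leaves at `v`.
-/

set_option autoImplicit false

open Finset

namespace Pool.Agent.Results.MP_8b7544_co.RadiusTwo

theorem chain {V : Type} [DecidableEq V] (t : V → ℕ) (X : Finset V) : (∀ x ∈ X, 1 ≤ t x) →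
    ∃ c c' : V → ℕ, (∀ x ∈ X, c x = c' x + t x) ∧ (∀ x ∈ X, c x ≤ ∑ y ∈ X, t y) ∧
      (∀ x ∈ X, ∀ y ∈ X, c x = c y → x = y) ∧ (∀ x ∈ X, ∀ y ∈ X, c' x = c' y → x = y) ∧
      (∀ x ∈ X, c x = ∑ y ∈ X, t y ∨ ∃ y ∈ X, c' y = c x) ∧ (X = ∅ ∨ ∃ y ∈ X, c' y = 0) := by
  induction X using Finset.induction_on with
  | empty => intro _; exact ⟨fun _ => 0, fun _ => 0, by simp⟩
  | insert a X ha ih =>
    intro ht
    obtain ⟨c, c', h1, h2, h3, h4, h5, h6⟩ := ih fun x hx => ht x (mem_insert_of_mem hx)
    have hta : 1 ≤ t a := ht a (mem_insert_self _ _)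
    have hS : ∑ y ∈ insert a X, t y = t a + ∑ y ∈ X, t y := sum_insert ha
    have hne : ∀ x ∈ X, x ≠ a := fun x hx h => ha (h ▸ hx)
    have hX : ∀ x ∈ X, c' x < ∑ y ∈ X, t y ∧ c x ≤ ∑ y ∈ X, t y := fun x hx => by
      have := h1 x hx
      have := h2 x hx
      have := ht x (mem_insert_of_mem hx)
      omega
    refine ⟨fun x => if x = a then t a + ∑ y ∈ X, t y else c x,
      fun x => if x = a then ∑ y ∈ X, t y else c' x, ?_, ?_, ?_, ?_, ?_, ?_⟩
    · intro x hx
      rcases mem_insert.1 hx with rfl | hx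
      · simp only [if_true]; omega
      · simp only [if_neg (hne x hx)]; exact h1 x hx
    · intro x hx
      rw [hS]
      rcases mem_insert.1 hx with rfl | hx
      · simp
      · simp only [if_neg (hne x hx)]
        have := hX x hx
        omega
    · intro x hx y hy h
      rcases mem_insert.1 hx with hx | hx <;> rcases mem_insert.1 hy with hy | hy
      · rw [hx, hy]
      · have := hX y hy
        simp only [if_pos hx, if_neg (hne y hy)] at h
        omega
      · have := hX x hx
        simp only [if_pos hy, if_neg (hne x hx)] at h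
        omega
      · simp only [if_neg (hne y hy), if_neg (hne x hx)] at h
        exact h3 x hx y hy h
    · intro x hx y hy h
      rcases mem_insert.1 hx with hx | hx <;> rcases mem_insert.1 hy with hy | hy
      · rw [hx, hy]
      · have := hX y hy
        simp only [if_pos hx, if_neg (hne y hy)] at h
        omega
      · have := hX x hx
        simp only [if_pos hy, if_neg (hne x hx)] at h
        omega
      · simp only [if_neg (hne y hy), if_neg (hne x hx)] at h
        exact h4 x hx y hy h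
    · intro x hx
      rcases mem_insert.1 hx with hx | hx
      · left; rw [hS]; simp [hx]
      · right
        rcases h5 x hx with h5 | ⟨y, hy, h5⟩
        · refine ⟨a, mem_insert_self _ _, ?_⟩
          simp only [if_neg (hne x hx), if_true]
          exact h5.symm
        · refine ⟨y, mem_insert_of_mem hy, ?_⟩
          simp only [if_neg (hne x hx), if_neg (hne y hy)]
          exact h5
    · right
      rcases h6 with h6 | ⟨y, hy, h6⟩
      · exact ⟨a, mem_insert_self _ _, by simp [h6]⟩
      · exact ⟨y, mem_insert_of_mem hy, by simp only [if_neg (hne y hy)]; exact h6⟩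

theorem main {V : Type} [Fintype V] [DecidableEq V] (v : V) (par : V → V)
    (q : ℕ) (hc : Fintype.card V = q + 1) (Y X : Finset V) (hvY : v ∉ Y) (hvX : v ∉ X)
    (hYX : ∀ x ∈ X, x ∉ Y) (hX : ∀ x ∈ X, par x ∈ Y) (hn : ∀ x, x ≠ v → x ∉ X → par x = v)
    (s : V → ℕ) (k : ℕ) (hs : ∀ y ∈ Y, 1 ≤ s y ∧ s y ≤ k) (hinj : ∀ x ∈ Y, ∀ y ∈ Y, s x = s y → x = y)
    (hS : ∑ x ∈ X, s (par x) + k ≤ q) :
    ∃ (b : ℤ) (f g : V → ℤ), (∀ x, |f x| ≤ q) ∧ (∀ x, x ≠ v → |g x| ≤ q) ∧ (∀ x y, f x = f y → x = y) ∧
      (∀ x y, x ≠ v → y ≠ v → g x = g y → x = y) ∧ (∀ x y, y ≠ v → f x ≠ g y) ∧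
      ∀ x, x ≠ v → f x + g x + f (par x) = b := by
  classical
  obtain ⟨c, c', h1, h2, h3, h4, h5, h6⟩ := chain (fun x => s (par x)) X fun x hx => (hs _ (hX x hx)).1
  obtain ⟨b, hb⟩ : ∃ b, b = ∑ x ∈ X, s (par x) := ⟨_, rfl⟩
  simp only [← hb] at h2 h5 hS
  have hx : ∀ x ∈ X, c' x < b ∧ c x ≤ b ∧ c x = c' x + s (par x) ∧ 1 ≤ s (par x) := by
    intro x hx
    have := h1 x hx
    have := h2 x hx
    have := hs _ (hX x hx)
    omega
  let U : Finset ℕ := X.image (fun x => b - c' x) ∪ Y.image fun y => b + s y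
  have hUc : U.card = X.card + Y.card := by
    rw [card_union_of_disjoint, card_image_of_injOn, card_image_of_injOn]
    · intro x hx' y hy' h
      simp only at h
      exact hinj x hx' y hy' (by omega)
    · intro x hx' y hy' h
      simp only at h
      have := hx x hx'
      have := hx y hy'
      exact h4 x hx' y hy' (by omega)
    · rw [Finset.disjoint_left]
      intro z hz hz'
      obtain ⟨x, hx', rfl⟩ := mem_image.1 hz
      obtain ⟨y, hy, h⟩ := mem_image.1 hz'
      have := hs y hy
      omega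
  have hU : U ⊆ Icc 1 q := by
    intro z hz
    rw [mem_Icc]
    rcases mem_union.1 hz with hz | hz
    · obtain ⟨x, hx', rfl⟩ := mem_image.1 hz
      have := hx x hx'
      omega
    · obtain ⟨y, hy, rfl⟩ := mem_image.1 hz
      have := hs y hy
      omega
  let Z : Finset V := insert v (Y ∪ X)
  have hvZ : v ∉ Y ∪ X := by
    rw [mem_union]; tauto
  have hdis : Disjoint Y X := by
    rw [Finset.disjoint_left]; exact fun x h1 h2 => hYX x h2 h1
  have hcard : (univ \ Z).card = (Icc 1 q \ U).card := by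
    rw [card_sdiff_of_subset (subset_univ _), card_sdiff_of_subset hU, card_insert_of_notMem hvZ,
      card_union_of_disjoint hdis, hUc, Nat.card_Icc, card_univ, hc]
    omega
  obtain ⟨e⟩ : Nonempty ((univ \ Z : Finset V) ≃ (Icc 1 q \ U : Finset ℕ)) :=
    ⟨Finset.equivOfCardEq hcard⟩
  let f : V → ℤ := fun x => if x = v then b else if x ∈ Y then b + s x else
    if x ∈ X then - b + c' x else if h : x ∈ univ \ Z then (e ⟨x, h⟩ : ℕ) else 0
  let g : V → ℤ := fun x => if x ∈ Y then -(b + s x : ℤ) else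
    if x ∈ X then b - c x else if h : x ∈ univ \ Z then -((e ⟨x, h⟩ : ℕ) : ℤ) else 0
  have fv : f v = b := if_pos rfl
  have fY : ∀ x ∈ Y, f x = b + s x := fun x hx => by
    have : x ≠ v := fun h => hvY (h ▸ hx)
    simp only [f, if_neg this, if_pos hx]
  have fX : ∀ x ∈ X, f x = - b + c' x := fun x hx => by
    have : x ≠ v := fun h => hvX (h ▸ hx)
    simp only [f, if_neg this, if_neg (hYX x hx), if_pos hx]
  have fL : ∀ x (h : x ∈ univ \ Z), f x = (e ⟨x, h⟩ : ℕ) := fun x h => by
    have h' := (mem_sdiff.1 h).2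
    simp only [Z, mem_insert, mem_union, not_or] at h'
    simp only [f, if_neg h'.1, if_neg h'.2.1, if_neg h'.2.2, dif_pos h]
  have gY : ∀ x ∈ Y, g x = -(b + s x : ℤ) := fun x hx => if_pos hx
  have gX : ∀ x ∈ X, g x = b - c x := fun x hx => by
    simp only [g, if_neg (hYX x hx), if_pos hx]
  have gL : ∀ x (h : x ∈ univ \ Z), g x = -((e ⟨x, h⟩ : ℕ) : ℤ) := fun x h => by
    have h' := (mem_sdiff.1 h).2
    simp only [Z, mem_insert, mem_union, not_or] at h'
    simp only [g, if_neg h'.2.1, if_neg h'.2.2, dif_pos h]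
  have cases : ∀ x, x = v ∨ x ∈ Y ∨ x ∈ X ∨ x ∈ univ \ Z := by
    intro x
    by_cases h : x ∈ Z
    · simp only [Z, mem_insert, mem_union] at h
      tauto
    · exact Or.inr (Or.inr (Or.inr (mem_sdiff.2 ⟨mem_univ _, h⟩)))
  have eL : ∀ x (h : x ∈ univ \ Z), 1 ≤ (e ⟨x, h⟩ : ℕ) ∧ (e ⟨x, h⟩ : ℕ) ≤ q ∧
      (∀ y ∈ Y, (e ⟨x, h⟩ : ℕ) ≠ b + s y) ∧ (∀ y ∈ X, (e ⟨x, h⟩ : ℕ) ≠ b - c' y) ∧
      (∀ y ∈ X, (e ⟨x, h⟩ : ℕ) ≠ b - c y) ∧ (e ⟨x, h⟩ : ℕ) ≠ b := by
    intro x h
    have h7 := mem_sdiff.1 (e ⟨x, h⟩).2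
    have h8 := mem_Icc.1 h7.1
    have hYY : ∀ y ∈ Y, (e ⟨x, h⟩ : ℕ) ≠ b + s y := fun y hy h9 =>
      h7.2 (mem_union_right _ (h9 ▸ mem_image_of_mem (fun y => b + s y) hy))
    have hXX : ∀ y ∈ X, (e ⟨x, h⟩ : ℕ) ≠ b - c' y := fun y hy h9 =>
      h7.2 (mem_union_left _ (h9 ▸ mem_image_of_mem (fun y => b - c' y) hy))
    refine ⟨h8.1, h8.2, hYY, hXX, ?_, ?_⟩
    · intro y hy
      rcases h5 y hy with h9 | ⟨z, hz, h9⟩
      · omega
      · rw [← h9]
        exact hXX z hz
    · rcases h6 with h6 | ⟨y, hy, h6⟩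
      · have : b = 0 := by rw [hb, h6, sum_empty]
        omega
      · have := hXX y hy
        omega
  refine ⟨b, f, g, ?_, ?_, ?_, ?_, ?_, ?_⟩
  · intro x
    rw [abs_le]
    rcases cases x with rfl | h | h | h
    · rw [fv]; omega
    · rw [fY x h]; have := hs x h; omega
    · rw [fX x h]; have := hx x h; omega
    · rw [fL x h]; have := eL x h; omega
  · intro x hxv
    rw [abs_le]
    rcases cases x with h | h | h | h
    · exact absurd h hxv
    · rw [gY x h]; have := hs x h; omega
    · rw [gX x h]; have := hx x h; omega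
    · rw [gL x h]; have := eL x h; omega
  · have half : ∀ x y, f x = f y → (x = v ∨ x ∈ Y ∨ x ∈ X ∨ x ∈ univ \ Z) → (y = v ∨ y ∈ Y ∨ y ∈ X ∨ y ∈ univ \ Z) →
        x = y := by
      intro x y h hcx hcy
      rcases hcx with hx1 | hx1 | hx1 | hx1 <;> rcases hcy with hy1 | hy1 | hy1 | hy1
      · rw [hx1, hy1]
      · rw [hx1, fv, fY y hy1] at h; have := hs y hy1; omega
      · rw [hx1, fv, fX y hy1] at h; have := hx y hy1; omega
      · rw [hx1, fv, fL y hy1] at h; have := eL y hy1; omega
      · rw [hy1, fv, fY x hx1] at h; have := hs x hx1; omega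
      · rw [fY x hx1, fY y hy1] at h; exact hinj x hx1 y hy1 (by omega)
      · rw [fY x hx1, fX y hy1] at h; have := hx y hy1; have := hs x hx1; omega
      · rw [fY x hx1, fL y hy1] at h; have := (eL y hy1).2.2.1 x hx1; omega
      · rw [hy1, fv, fX x hx1] at h; have := hx x hx1; omega
      · rw [fY y hy1, fX x hx1] at h; have := hx x hx1; have := hs y hy1; omega
      · rw [fX x hx1, fX y hy1] at h; exact h4 x hx1 y hy1 (by omega)
      · rw [fX x hx1, fL y hy1] at h; have := hx x hx1; have := eL y hy1; omega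
      · rw [hy1, fv, fL x hx1] at h; have := eL x hx1; omega
      · rw [fY y hy1, fL x hx1] at h; have := (eL x hx1).2.2.1 y hy1; omega
      · rw [fX y hy1, fL x hx1] at h; have := hx y hy1; have := eL x hx1; omega
      · rw [fL x hx1, fL y hy1] at h
        have := e.injective (Subtype.ext (Int.ofNat_inj.1 h))
        exact congrArg Subtype.val this
    exact fun x y h => half x y h (cases x) (cases y)
  · intro x y hxv hyv h
    rcases (cases x).resolve_left hxv with hx1 | hx1 | hx1 <;> rcases (cases y).resolve_left hyv with hy1 | hy1 | hy1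
    · rw [gY x hx1, gY y hy1] at h; exact hinj x hx1 y hy1 (by omega)
    · rw [gY x hx1, gX y hy1] at h; have := hx y hy1; have := hs x hx1; omega
    · rw [gY x hx1, gL y hy1] at h; have := (eL y hy1).2.2.1 x hx1; omega
    · rw [gY y hy1, gX x hx1] at h; have := hx x hx1; have := hs y hy1; omega
    · rw [gX x hx1, gX y hy1] at h; exact h3 x hx1 y hy1 (by omega)
    · rw [gX x hx1, gL y hy1] at h; have := hx x hx1; have := eL y hy1; omega
    · rw [gY y hy1, gL x hx1] at h; have := (eL x hx1).2.2.1 y hy1; omega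
    · rw [gX y hy1, gL x hx1] at h; have := hx y hy1; have := eL x hx1; omega
    · rw [gL x hx1, gL y hy1] at h
      have := e.injective (Subtype.ext (Int.ofNat_inj.1 (neg_inj.1 h)))
      exact congrArg Subtype.val this
  · intro x y hyv h
    rcases cases x with hx1 | hx1 | hx1 | hx1 <;> rcases (cases y).resolve_left hyv with hy1 | hy1 | hy1
    · rw [hx1, fv, gY y hy1] at h; have := hs y hy1; omega
    · rw [hx1, fv, gX y hy1] at h; have := hx y hy1; omega
    · rw [hx1, fv, gL y hy1] at h; have := eL y hy1; omega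
    · rw [fY x hx1, gY y hy1] at h; have := hs y hy1; have := hs x hx1; omega
    · rw [fY x hx1, gX y hy1] at h; have := hx y hy1; have := hs x hx1; omega
    · rw [fY x hx1, gL y hy1] at h; have := hs x hx1; have := eL y hy1; omega
    · rw [fX x hx1, gY y hy1] at h; have := hs y hy1; have := hx x hx1; omega
    · rw [fX x hx1, gX y hy1] at h; have := hx y hy1; have := hx x hx1; omega
    · rw [fX x hx1, gL y hy1] at h; have := (eL y hy1).2.2.2.1 x hx1; have := hx x hx1; omega
    · rw [fL x hx1, gY y hy1] at h; have := hs y hy1; have := eL x hx1; omega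
    · rw [fL x hx1, gX y hy1] at h; have := (eL x hx1).2.2.2.2.1 y hy1; have := hx y hy1; omega
    · rw [fL x hx1, gL y hy1] at h; have := eL x hx1; have := eL y hy1; omega
  · intro x hxv
    rcases (cases x).resolve_left hxv with h | h | h
    · rw [hn x hxv fun h' => hYX x h' h, fv, fY x h, gY x h]; ring
    · rw [fX x h, gX x h, fY _ (hX x h), (hx x h).2.2.1]; push_cast; ring
    · have h' := (mem_sdiff.1 h).2
      simp only [Z, mem_insert, mem_union, not_or] at h'
      rw [hn x hxv h'.2.2, fv, fL x h, gL x h]; ring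

/-- **Trees of radius two with enough leaves at the centre are edge-magic.** Let all vertices of the tree `G` have
distance at most two from `v`, let `k` be the number of the neighbours of `v` which have a neighbour at distance
two from `v`, `n` the number of the vertices at distance two from `v`, and `q` the number of edges. If
`(k + 1) n + 2 k ≤ 2 q`, then there is an injective labelling `F` of the vertices and edges by the integers
from `1` to `2 |V| - 1` (the number of all vertices and edges) with constant sums at the edges. -/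
theorem result {V : Type} [Fintype V] (G : SimpleGraph V) (hG : G.IsTree) (v : V)
    (hv : ∀ x, G.dist v x ≤ 2)
    (h : ({y : V | G.Adj v y ∧ ∃ x, G.Adj y x ∧ G.dist v x = 2}.ncard + 1) * {x : V | G.dist v x = 2}.ncard +
      2 * {y : V | G.Adj v y ∧ ∃ x, G.Adj y x ∧ G.dist v x = 2}.ncard ≤ 2 * (Fintype.card V - 1)) :
    ∃ (F : V ⊕ G.edgeSet → ℕ) (K : ℕ), Function.Injective F ∧
      (∀ z, 1 ≤ F z ∧ F z ≤ 2 * Fintype.card V - 1) ∧
      ∀ (u w : V) (h : G.Adj u w), F (Sum.inl u) + F (Sum.inr ⟨s(u, w), h⟩) + F (Sum.inl w) = K := by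
  classical
  obtain ⟨par, hr⟩ := Pool.Agent.H115R2.exists_root G hG v
  let X : Finset V := univ.filter fun x => G.dist v x = 2
  let Y : Finset V := X.image par
  have hd : ∀ x, x ≠ v → G.dist v x = G.dist v (par x) + 1 := fun x hx => hr.dist x hx
  have hvv : G.dist v v = 0 := SimpleGraph.dist_self
  have memX : ∀ x, x ∈ X ↔ G.dist v x = 2 := fun x => by simp [X]
  have hXv : ∀ x ∈ X, x ≠ v := fun x hx h => by
    have := (memX x).1 hx
    rw [h, hvv] at this
    omega
  have hp1 : ∀ x ∈ X, G.dist v (par x) = 1 := fun x hx => by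
    have := hd x (hXv x hx)
    have := (memX x).1 hx
    omega
  have hY1 : ∀ y ∈ Y, G.dist v y = 1 := fun y hy => by
    obtain ⟨x, hx, rfl⟩ := mem_image.1 hy
    exact hp1 x hx
  have hXc : X.card = {x : V | G.dist v x = 2}.ncard := by
    rw [← Set.ncard_coe_finset]
    congr 1
    ext x
    simp [X]
  have hYc : Y.card ≤ {y : V | G.Adj v y ∧ ∃ x, G.Adj y x ∧ G.dist v x = 2}.ncard := by
    rw [← Set.ncard_coe_finset]
    refine Set.ncard_le_ncard ?_ (Set.toFinite _)
    intro y hy
    obtain ⟨x, hx, rfl⟩ := mem_image.1 (mem_coe.1 hy)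
    exact ⟨SimpleGraph.dist_eq_one_iff_adj.1 (hp1 x hx), x, hr.adj x (hXv x hx), (memX x).1 hx⟩
  have hV : 1 ≤ Fintype.card V := Fintype.card_pos_iff.2 ⟨v⟩
  obtain ⟨s, hs1, hs2, hs3⟩ :=
    Pool.Agent.Results.MP_9ddc60_co.RadiusTwo.exists_s par Y X fun x hx => mem_image_of_mem _ hx
  obtain ⟨b, f, g, hf, hg, hff, hgg, hfg, hsum⟩ := main v par (Fintype.card V - 1) (by omega) Y X
    (by
      intro h1
      have := hY1 v h1
      omega)
    (by
      intro h1
      exact hXv v h1 rfl)
    (by
      intro x hx h1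
      have := hY1 x h1
      have := (memX x).1 hx
      omega)
    (fun x hx => mem_image_of_mem _ hx)
    (by
      intro x hx hxX
      have h1 := hd x hx
      have h2 := hv x
      rw [memX] at hxX
      have h3 : G.dist v (par x) = 0 := by omega
      exact ((hG.connected v (par x)).dist_eq_zero_iff.1 h3).symm)
    s Y.card hs1 hs2
    (by
      rw [hXc] at hs3
      have h1 : (Y.card + 1) * {x : V | G.dist v x = 2}.ncard ≤
        ({y : V | G.Adj v y ∧ ∃ x, G.Adj y x ∧ G.dist v x = 2}.ncard + 1) * {x : V | G.dist v x = 2}.ncard :=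
        Nat.mul_le_mul_right _ (by omega)
      omega)
  have hch : ∀ e : G.edgeSet, ∃ x, x ≠ v ∧ (e : Sym2 V) = s(x, par x) := by
    rintro ⟨e, he⟩
    induction e using Sym2.ind with
    | _ a b =>
      rcases hr.cov a b he with ⟨h1, h2⟩ | ⟨h1, h2⟩
      · exact ⟨a, h1, by rw [h2]⟩
      · exact ⟨b, h1, by rw [h2]; exact Sym2.eq_swap⟩
  choose ch hch1 hch2 using hch
  obtain ⟨N, hN⟩ : ∃ N : ℕ, N = Fintype.card V := ⟨_, rfl⟩
  rw [← hN] at hf hg hV ⊢
  have cN : ((N - 1 : ℕ) : ℤ) = N - 1 := by omega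
  let F : V ⊕ G.edgeSet → ℕ := fun z => match z with
    | Sum.inl x => (f x + N).toNat
    | Sum.inr e => (g (ch e) + N).toNat
  have F1 : ∀ x, (F (Sum.inl x) : ℤ) = f x + N := fun x => by
    have := abs_le.1 (hf x)
    exact Int.toNat_of_nonneg (by omega)
  have F2 : ∀ e, (F (Sum.inr e) : ℤ) = g (ch e) + N := fun e => by
    have := abs_le.1 (hg _ (hch1 e))
    exact Int.toNat_of_nonneg (by omega)
  refine ⟨F, (b + 3 * N).toNat, ?_, ?_, ?_⟩
  · rintro (x | e) (y | e') h1
    · have h2 := F1 x
      have h3 := F1 y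
      rw [h1, h3] at h2
      rw [hff x y (by omega)]
    · have h2 := F1 x
      have h3 := F2 e'
      rw [h1, h3] at h2
      exact absurd (by omega) (hfg x (ch e') (hch1 e'))
    · have h2 := F2 e
      have h3 := F1 y
      rw [h1, h3] at h2
      exact absurd (by omega) (hfg y (ch e) (hch1 e))
    · have h2 := F2 e
      have h3 := F2 e'
      rw [h1, h3] at h2
      have h4 := hgg _ _ (hch1 e) (hch1 e') (by omega)
      have h5 : e = e' := Subtype.ext (by rw [hch2 e, hch2 e', h4])
      rw [h5]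
  · rintro (x | e)
    · have h2 := F1 x
      have := abs_le.1 (hf x)
      omega
    · have h2 := F2 e
      have := abs_le.1 (hg _ (hch1 e))
      omega
  · intro u w h1
    have h2 := F1 u
    have h3 := F1 w
    have h4 := F2 ⟨s(u, w), h1⟩
    have h5 := hch2 ⟨s(u, w), h1⟩
    have h6 := hsum _ (hch1 ⟨s(u, w), h1⟩)
    rcases Sym2.eq_iff.1 h5 with ⟨h7, h8⟩ | ⟨h7, h8⟩
    · rw [← h8, ← h7] at h6
      rw [← h7] at h4
      omega
    · rw [← h7, ← h8] at h6
      rw [← h8] at h4
      omega

end Pool.Agent.Results.MP_8b7544_co.RadiusTwo
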